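import Pool.Agent.L7h88.CE.Sys
import Pool.Agent.Helper391.Lg.P_tr_split

/-! Project CE (helper3, MP_7f38c2_co), part EUL: construction of the tree of closed trails -/

set_option autoImplicit false

namespace Pool.Agent.L7h88.CE

open Set Pool.Agent.Helper391.Lg Pool.Agent.L7h3.CE

universe u v

variable {E : Type u} {V : Type v}

/-- an object of the construction -/
structure Ob (ends : E → Sym2 V) where
  I : Set E
  p : V
  con : ConI ends I
  ev : EvenI ends I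
  inf : I.Infinite
  hp : ∃ e ∈ I, p ∈ ends e

variable {ends : E → Sym2 V}

/-- a good closed trail for the object `O` -/
structure GQ (code : E → ℕ) (O : Ob ends) (l : List E) : Prop where
  ne : l ≠ []
  nd : l.Nodup
  sub : ∀ e ∈ l, e ∈ O.I
  tr : Tr ends O.p l O.p
  first : ∀ f ∈ O.I, (∀ g ∈ O.I, code f ≤ code g) → f ∈ l
  atp : ∀ e ∈ O.I, O.p ∈ ends e → e ∈ l
  inf : ∀ e ∈ O.I, e ∉ l → (compE ends (O.I \ {x | x ∈ l}) e).Infinite

theorem ex_GQ (hS : S_STEP.{u, v}) (hfin : ∀ v, {e | v ∈ ends e}.Finite) {code : E → ℕ}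
    (hc : Function.Injective code) (O : Ob ends) : ∃ l, GQ code O l := by
  have hF : {f ∈ O.I | ∀ g ∈ O.I, code f ≤ code g}.Finite := by
    apply Set.Subsingleton.finite
    rintro f ⟨hf, hf'⟩ g ⟨hg, hg'⟩
    exact hc (le_antisymm (hf' g hg) (hg' f hf))
  obtain ⟨l, h1, h2, h3, h4, h5, h6, h7⟩ := hS E V ends hfin O.I O.con O.ev O.p O.hp
    {f ∈ O.I | ∀ g ∈ O.I, code f ≤ code g} (fun f hf => hf.1) hF
  exact ⟨l, h1, h2, h3, h4, fun f hf hf' => h5 f ⟨hf, hf'⟩, h6, h7⟩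

/-- positions of `J` in the list -/
def PS (Q : Ob ends → List E) (O : Ob ends) (J : Set E) : Set ℕ :=
  {i | 0 < i ∧ i < (Q O).length ∧ ∃ x, Tr ends O.p ((Q O).take i) x ∧ Tr ends x ((Q O).drop i) O.p ∧
    ∃ f ∈ J, x ∈ ends f}

/-- `C` is the child of `O` at the position `i` -/
structure IsCh (Q : Ob ends → List E) (O : Ob ends) (i : ℕ) (C : Ob ends) : Prop where
  comp : ∃ e ∈ O.I, e ∉ Q O ∧ C.I = compE ends (O.I \ {y | y ∈ Q O}) e
  pos : 0 < i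
  lt : i < (Q O).length
  eq : i = sInf (PS Q O C.I)
  tr1 : Tr ends O.p ((Q O).take i) C.p
  tr2 : Tr ends C.p ((Q O).drop i) O.p

theorem tr_det : ∀ (l : List E) (a x y : V), Tr ends a l x → Tr ends a l y → x = y := by
  intro l
  induction l with
  | nil => intro a x y h1 h2; exact (h1 : a = x).symm.trans h2
  | cons e l ih =>
    intro a x y h1 h2
    obtain ⟨c, hc, h1⟩ := h1
    obtain ⟨d, hd, h2⟩ := h2
    have : c = d := by
      rw [hc] at hd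
      exact (Sym2.congr_right.1 hd)
    subst this
    exact ih c x y h1 h2

section
variable (hD : S_EVD.{u, v}) (hC : S_EVC.{u, v}) {code : E → ℕ} {Q : Ob ends → List E}
  (hQ : ∀ O, GQ code O (Q O))
include hD hC hQ

omit hC in
theorem evR (O : Ob ends) : EvenI ends (O.I \ {x | x ∈ Q O}) :=
  hD E V ends O.I O.ev O.p (Q O) (hQ O).tr (hQ O).nd (hQ O).sub

theorem comp_same (O : Ob ends) {e₁ e₂ f g : E} (h1 : e₁ ∈ O.I) (h1' : e₁ ∉ Q O) (h2 : e₂ ∈ O.I)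
    (h2' : e₂ ∉ Q O) (hf : f ∈ compE ends (O.I \ {x | x ∈ Q O}) e₁)
    (hg : g ∈ compE ends (O.I \ {x | x ∈ Q O}) e₂) {x : V} (hx : x ∈ ends f) (hx' : x ∈ ends g) :
    compE ends (O.I \ {x | x ∈ Q O}) e₁ = compE ends (O.I \ {x | x ∈ Q O}) e₂ := by
  obtain ⟨-, -, -, -, a5, a6⟩ := hC E V ends _ (evR hD hQ O) e₁ ⟨h1, h1'⟩
  obtain ⟨-, b2, -, -, b5, -⟩ := hC E V ends _ (evR hD hQ O) e₂ ⟨h2, h2'⟩
  have h3 : g ∈ compE ends (O.I \ {x | x ∈ Q O}) e₁ := by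
    by_contra h
    exact a6 g (b2 hg) h f hf x hx' hx
  rw [← a5 g h3, b5 g hg]

theorem att (O : Ob ends) {e : E} (he : e ∈ O.I) (he' : e ∉ Q O) :
    (PS Q O (compE ends (O.I \ {y | y ∈ Q O}) e)).Nonempty := by
  obtain ⟨a1, a2, -, -, -, a6⟩ := hC E V ends _ (evR hD hQ O) e ⟨he, he'⟩
  have h1 : ∃ q ∈ Q O, ∃ x ∈ ends q, ∃ k ∈ compE ends (O.I \ {y | y ∈ Q O}) e, x ∈ ends k := by
    by_contra hcon
    push Not at hcon
    obtain ⟨q, hq⟩ := List.exists_mem_of_ne_nil _ (hQ O).ne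
    obtain ⟨x, hx⟩ := Sys.ends_ne (ends := ends) e
    obtain ⟨y, hy⟩ := Sys.ends_ne (ends := ends) q
    have h2 := Sys.reach_ind (R := O.I)
      (W := {v | ∃ g ∈ compE ends (O.I \ {y | y ∈ Q O}) e, v ∈ ends g}) ?_
      (O.con e he q ((hQ O).sub q hq) x hx y hy) ⟨e, a1, hx⟩
    · obtain ⟨k, hk, hyk⟩ := h2
      exact hcon q hq y hy k hk hyk
    · rintro g hg v hv ⟨k, hk, hvk⟩ w hw
      have hg' : g ∉ Q O := fun h => hcon g h v hv k hk hvk
      refine ⟨g, ?_, hw⟩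
      by_contra h
      exact a6 g ⟨hg, hg'⟩ h k hk v hv hvk
  obtain ⟨q, hq, x, hx, k, hk, hxk⟩ := h1
  obtain ⟨l₁, l₂, hl, h3, h4⟩ := tr_split ends (Q O) O.p O.p x (hQ O).tr q hq hx
  have hk2 := a2 hk
  have hxp : x ≠ O.p := by
    rintro rfl
    exact hk2.2 ((hQ O).atp k hk2.1 hxk)
  refine ⟨l₁.length, ?_, ?_, x, ?_, ?_, k, hk, hxk⟩
  · rw [List.length_pos_iff]
    rintro rfl
    exact hxp (h3 : O.p = x).symm
  · rw [hl, List.length_append]
    have : 0 < l₂.length := by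
      rw [List.length_pos_iff]
      rintro rfl
      exact hxp h4
    omega
  · rw [hl, List.take_left]; exact h3
  · rw [hl, List.drop_left]; exact h4

theorem ex_ch (O : Ob ends) {e : E} (he : e ∈ O.I) (he' : e ∉ Q O) :
    ∃ i C, IsCh Q O i C ∧ C.I = compE ends (O.I \ {y | y ∈ Q O}) e := by
  have h1 := Nat.sInf_mem (att hD hC hQ O he he')
  obtain ⟨h2, h3, x, h4, h5, h6⟩ := h1
  obtain ⟨-, -, a3, a4, -, -⟩ := hC E V ends _ (evR hD hQ O) e ⟨he, he'⟩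
  exact ⟨_, ⟨compE ends (O.I \ {y | y ∈ Q O}) e, x, a3, a4, (hQ O).inf e he he', h6⟩,
    ⟨⟨e, he, he', rfl⟩, h2, h3, rfl, h4, h5⟩, rfl⟩

theorem ch_uniq (O : Ob ends) {i : ℕ} {C C' : Ob ends} (h : IsCh Q O i C) (h' : IsCh Q O i C') :
    C.I = C'.I := by
  have h1 := tr_det _ _ _ _ h.tr1 h'.tr1
  obtain ⟨e, he, he', h2⟩ := h.comp
  obtain ⟨f, hf, hf', h3⟩ := h'.comp
  obtain ⟨k, hk, hk'⟩ := C.hp
  obtain ⟨k2, hk2, hk2'⟩ := C'.hp
  rw [h2] at hk
  rw [h3] at hk2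
  rw [h2, h3]
  rw [← h1] at hk2'
  exact comp_same hD hC hQ O he he' hf hf' hk hk2 hk' hk2'

end

open Classical in
/-- the object of a node -/
noncomputable def obj (Q : Ob ends → List E) (O₀ : Ob ends) : List ℕ → Ob ends
  | [] => O₀
  | i :: s => if h : ∃ C, IsCh Q (obj Q O₀ s) i C then h.choose else obj Q O₀ s

/-- the nodes -/
def TT (Q : Ob ends → List E) (O₀ : Ob ends) : List ℕ → Prop
  | [] => True
  | i :: s => TT Q O₀ s ∧ ∃ C, IsCh Q (obj Q O₀ s) i C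

theorem obj_ch {Q : Ob ends → List E} {O₀ : Ob ends} {i : ℕ} {s : List ℕ} (h : TT Q O₀ (i :: s)) :
    IsCh Q (obj Q O₀ s) i (obj Q O₀ (i :: s)) := by
  have h2 : ∃ C, IsCh Q (obj Q O₀ s) i C := h.2
  have h3 : obj Q O₀ (i :: s) = h2.choose := by
    simp only [obj]
    rw [dif_pos h2]
  rw [h3]
  exact h2.choose_spec

theorem mkSys (hD : S_EVD.{u, v}) (hC : S_EVC.{u, v}) {code : E → ℕ}
    {Q : Ob ends → List E} (hQ : ∀ O, GQ code O (Q O)) (O₀ : Ob ends) (hO : O₀.I = univ) :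
    Nonempty (Sys ends) := by
  have hsub : ∀ i s, TT Q O₀ (i :: s) → (obj Q O₀ (i :: s)).I ⊆ (obj Q O₀ s).I ∧
      ∀ e ∈ (obj Q O₀ (i :: s)).I, e ∉ Q (obj Q O₀ s) := by
    intro i s h
    obtain ⟨e, he, he', h2⟩ := (obj_ch h).comp
    obtain ⟨-, a2, -⟩ := hC E V ends _ (evR hD hQ (obj Q O₀ s)) e ⟨he, he'⟩
    rw [h2]
    exact ⟨fun f hf => (a2 hf).1, fun f hf => (a2 hf).2⟩
  have hcov : ∀ s, TT Q O₀ s → ∀ e ∈ (obj Q O₀ s).I, e ∉ Q (obj Q O₀ s) →
      ∃ i, TT Q O₀ (i :: s) ∧ e ∈ (obj Q O₀ (i :: s)).I := by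
    intro s hs e he he'
    obtain ⟨i, C, h1, h2⟩ := ex_ch hD hC hQ _ he he'
    have h3 : TT Q O₀ (i :: s) := ⟨hs, C, h1⟩
    refine ⟨i, h3, ?_⟩
    rw [← ch_uniq hD hC hQ _ h1 (obj_ch h3), h2]
    exact (hC E V ends _ (evR hD hQ (obj Q O₀ s)) e ⟨he, he'⟩).1
  refine ⟨{
    T := TT Q O₀
    Q := fun s => Q (obj Q O₀ s)
    I := fun s => (obj Q O₀ s).I
    p := fun s => (obj Q O₀ s).p
    root := trivial
    rootI := hO
    par := fun i s h => ⟨h.1, (obj_ch h).pos, (obj_ch h).lt⟩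
    sub := fun i s h => (hsub i s h).1
    out := fun i s h => (hsub i s h).2
    tr1 := fun i s h => (obj_ch h).tr1
    tr2 := fun i s h => (obj_ch h).tr2
    ne := fun s _ => (hQ _).ne
    nd := fun s _ => (hQ _).nd
    subQ := fun s _ => (hQ _).sub
    tr := fun s _ => (hQ _).tr
    conn := fun s _ => (obj Q O₀ s).con
    inf := fun s _ => (obj Q O₀ s).inf
    cov := hcov
    disj := ?_
    exh := ?_ }⟩
  · intro s i j hi hj e he f hf x hx hx'
    obtain ⟨e₁, h1, h1', h2⟩ := (obj_ch hi).comp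
    obtain ⟨e₂, h3, h3', h4⟩ := (obj_ch hj).comp
    rw [h2] at he
    rw [h4] at hf
    have h5 := comp_same hD hC hQ _ h1 h1' h3 h3' he hf hx hx'
    rw [(obj_ch hi).eq, (obj_ch hj).eq, h2, h4, h5]
  · intro e
    have key : ∀ n, (∃ s, TT Q O₀ s ∧ e ∈ Q (obj Q O₀ s)) ∨
        ∃ s, TT Q O₀ s ∧ e ∈ (obj Q O₀ s).I ∧ ∀ f ∈ (obj Q O₀ s).I, n ≤ code f := by
      intro n
      induction n with
      | zero => exact Or.inr ⟨[], trivial, by show e ∈ O₀.I; rw [hO]; trivial, fun _ _ => Nat.zero_le _⟩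
      | succ n ih =>
        rcases ih with h | ⟨s, hs, he, hn⟩
        · exact Or.inl h
        · by_cases heq : e ∈ Q (obj Q O₀ s)
          · exact Or.inl ⟨s, hs, heq⟩
          · obtain ⟨i, hi, hi'⟩ := hcov s hs e he heq
            refine Or.inr ⟨i :: s, hi, hi', ?_⟩
            intro f hf
            have h1 := hn f ((hsub i s hi).1 hf)
            rcases h1.lt_or_eq with h2 | h2
            · exact h2
            · exact absurd ((hQ (obj Q O₀ s)).first f ((hsub i s hi).1 hf)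
                (fun g hg => h2 ▸ hn g hg)) ((hsub i s hi).2 f hf)
    rcases key (code e + 1) with h | ⟨s, -, he, hn⟩
    · exact h
    · have := hn e he
      omega

theorem s_EUL (hS : S_STEP.{u, v}) (hD : S_EVD.{u, v}) (hC : S_EVC.{u, v}) : S_EUL.{u, v} := by
  intro E V _ _ ends h
  obtain ⟨code, hc⟩ := exists_injective_nat E
  choose Q hQ using fun O : Ob ends => ex_GQ hS h.fin hc O
  obtain ⟨e₀⟩ : Nonempty E := inferInstance
  obtain ⟨x, hx⟩ := Sys.ends_ne (ends := ends) e₀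
  obtain ⟨S⟩ := mkSys hD hC hQ ⟨univ, x, h.conn, h.even, Set.infinite_univ, e₀, trivial, hx⟩ rfl
  exact S.concl e₀

end Pool.Agent.L7h88.CE
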