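import Mathlib

/-! Project CE (helper3, MP_7f38c2_co), part EUL: the successor function of a tree of cyclic lists -/

set_option autoImplicit false

namespace Pool.Agent.L7h88.CE

/-- an index tree: nodes `T`, the node `i :: s` hangs in the gap `0 < i < len s` of the list of `s` -/
structure Ix where
  T : List ℕ → Prop
  len : List ℕ → ℕ
  root : T []
  pos : ∀ s, T s → 0 < len s
  par : ∀ i s, T (i :: s) → T s ∧ 0 < i ∧ i < len s

variable (A : Ix)

/-- positions -/
def Ok (x : List ℕ × ℕ) : Prop := A.T x.1 ∧ x.2 < A.len x.1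

open Classical in
noncomputable def sc (x : List ℕ × ℕ) : List ℕ × ℕ :=
  if x.2 + 1 < A.len x.1 then
    (if A.T ((x.2 + 1) :: x.1) then ((x.2 + 1) :: x.1, 0) else (x.1, x.2 + 1))
  else (x.1.tail, x.1.headD 0)

open Classical in
noncomputable def pc (x : List ℕ × ℕ) : List ℕ × ℕ :=
  if 0 < x.2 then
    (if A.T (x.2 :: x.1) then (x.2 :: x.1, A.len (x.2 :: x.1) - 1) else (x.1, x.2 - 1))
  else (if x.1 = [] then ([], A.len [] - 1) else (x.1.tail, x.1.headD 0 - 1))

variable {A}

theorem sc_in {s : List ℕ} {i : ℕ} (h : i + 1 < A.len s) (hT : ¬ A.T ((i + 1) :: s)) :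
    sc A (s, i) = (s, i + 1) := by
  simp [sc, h, hT]

theorem sc_ch {s : List ℕ} {i : ℕ} (hT : A.T ((i + 1) :: s)) :
    sc A (s, i) = ((i + 1) :: s, 0) := by
  have h := (A.par _ _ hT).2.2
  simp [sc, h, hT]

theorem sc_last_nil {i : ℕ} (h : ¬ i + 1 < A.len []) : sc A ([], i) = ([], 0) := by
  simp [sc, h]

theorem sc_last_cons {j i : ℕ} {t : List ℕ} (h : ¬ i + 1 < A.len (j :: t)) :
    sc A (j :: t, i) = (t, j) := by
  simp [sc, h]

theorem sc_ok {x : List ℕ × ℕ} (h : Ok A x) : Ok A (sc A x) := by
  obtain ⟨s, i⟩ := x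
  obtain ⟨h1, h2⟩ := h
  simp only at h1 h2
  by_cases hl : i + 1 < A.len s
  · by_cases hT : A.T ((i + 1) :: s)
    · rw [sc_ch hT]; exact ⟨hT, A.pos _ hT⟩
    · rw [sc_in hl hT]; exact ⟨h1, hl⟩
  · cases s with
    | nil => rw [sc_last_nil hl]; exact ⟨A.root, A.pos _ A.root⟩
    | cons j t =>
      rw [sc_last_cons hl]
      exact ⟨(A.par _ _ h1).1, (A.par _ _ h1).2.2⟩

theorem pc_ok {x : List ℕ × ℕ} (h : Ok A x) : Ok A (pc A x) := by
  obtain ⟨s, i⟩ := x
  obtain ⟨h1, h2⟩ := h
  simp only at h1 h2
  unfold pc
  simp only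
  split_ifs with a b c
  · exact ⟨b, by have := A.pos _ b; simp only; omega⟩
  · exact ⟨h1, by simp only; omega⟩
  · exact ⟨A.root, by have := A.pos _ A.root; simp only; omega⟩
  · cases s with
    | nil => exact absurd rfl c
    | cons j t =>
      have := A.par _ _ h1
      exact ⟨this.1, by simp only [List.headD_cons, List.tail_cons]; omega⟩

theorem pc_sc {x : List ℕ × ℕ} (h : Ok A x) : pc A (sc A x) = x := by
  obtain ⟨s, i⟩ := x
  obtain ⟨h1, h2⟩ := h
  simp only at h1 h2
  by_cases hl : i + 1 < A.len s
  · by_cases hT : A.T ((i + 1) :: s)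
    · rw [sc_ch hT]; simp [pc]
    · rw [sc_in hl hT]; simp [pc, hT]
  · cases s with
    | nil =>
      rw [sc_last_nil hl]
      have : A.len [] - 1 = i := by omega
      simp [pc, this]
    | cons j t =>
      rw [sc_last_cons hl]
      have h3 := A.par _ _ h1
      have : A.len (j :: t) - 1 = i := by omega
      simp [pc, h3.2.1, h1, this]

theorem sc_pc {x : List ℕ × ℕ} (h : Ok A x) : sc A (pc A x) = x := by
  obtain ⟨s, i⟩ := x
  obtain ⟨h1, h2⟩ := h
  simp only at h1 h2
  unfold pc
  simp only
  split_ifs with a b c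
  · have h3 := A.pos _ b
    rw [sc_last_cons (by omega)]
  · have : i - 1 + 1 = i := by omega
    rw [sc_in (by omega) (by rw [this]; exact b), this]
  · subst c
    have h3 := A.pos _ A.root
    rw [sc_last_nil (by omega)]
    have : i = 0 := by omega
    rw [this]
  · cases s with
    | nil => exact absurd rfl c
    | cons j t =>
      have h3 := A.par _ _ h1
      have h4 : i = 0 := by omega
      simp only [List.headD_cons, List.tail_cons]
      have : j - 1 + 1 = j := by omega
      rw [sc_ch (by rw [this]; exact h1), this, h4]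

/-- entrance: the only position outside the descendants of `j :: t` with successor among them -/
theorem ent {x : List ℕ × ℕ} {j : ℕ} {t : List ℕ} (h : Ok A x) (hT : A.T (j :: t)) :
    ((¬ (j :: t) <:+ x.1 ∧ (j :: t) <:+ (sc A x).1) ↔ x = (t, j - 1)) := by
  have hp := A.par _ _ hT
  obtain ⟨s, i⟩ := x
  obtain ⟨h1, h2⟩ := h
  simp only at h1 h2
  constructor
  · rintro ⟨a, b⟩
    by_cases hl : i + 1 < A.len s
    · by_cases hC : A.T ((i + 1) :: s)
      · rw [sc_ch hC] at b
        simp only at a b
        rw [List.suffix_cons_iff] at b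
        rcases b with b | b
        · obtain ⟨rfl, rfl⟩ := List.cons.inj b
          simp
        · exact absurd b a
      · rw [sc_in hl hC] at b
        exact absurd b a
    · cases s with
      | nil => rw [sc_last_nil hl] at b; exact absurd b a
      | cons k u =>
        rw [sc_last_cons hl] at b
        exact absurd (b.trans (List.suffix_cons _ _)) a
  · intro hx
    obtain ⟨rfl, rfl⟩ := Prod.mk.inj hx
    have : j - 1 + 1 = j := by omega
    constructor
    · intro hs
      have := hs.length_le
      simp only [List.length_cons] at this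
      omega
    · rw [sc_ch (by rw [this]; exact hT), this]

/-- exit -/
theorem ext {x : List ℕ × ℕ} {j : ℕ} {t : List ℕ} (h : Ok A x) (hT : A.T (j :: t)) :
    (((j :: t) <:+ x.1 ∧ ¬ (j :: t) <:+ (sc A x).1) ↔ x = (j :: t, A.len (j :: t) - 1)) := by
  have hp := A.par _ _ hT
  obtain ⟨s, i⟩ := x
  obtain ⟨h1, h2⟩ := h
  simp only at h1 h2
  constructor
  · rintro ⟨a, b⟩
    simp only at a
    by_cases hl : i + 1 < A.len s
    · by_cases hC : A.T ((i + 1) :: s)
      · rw [sc_ch hC] at b
        exact absurd (a.trans (List.suffix_cons _ _)) b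
      · rw [sc_in hl hC] at b
        exact absurd a b
    · cases s with
      | nil =>
        have := a.length_le
        simp at this
      | cons k u =>
        rw [sc_last_cons hl] at b
        rw [List.suffix_cons_iff] at a
        rcases a with a | a
        · obtain ⟨rfl, rfl⟩ := List.cons.inj a
          have : i = A.len (j :: t) - 1 := by omega
          rw [this]
        · exact absurd a b
  · intro hx
    obtain ⟨rfl, rfl⟩ := Prod.mk.inj hx
    have h3 := A.pos _ hT
    refine ⟨List.suffix_refl _, ?_⟩
    rw [sc_last_cons (by omega)]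
    intro hs
    have := hs.length_le
    simp only [List.length_cons] at this
    omega

/-- uniformity goes up the tree -/
theorem unif (Y : Set (List ℕ × ℕ)) (hY : ∀ x, Ok A x → (x ∈ Y ↔ sc A x ∈ Y)) (n : ℕ)
    (hn : ∀ s, A.T s → s.length = n → ∀ x y, Ok A x → Ok A y → s <:+ x.1 → s <:+ y.1 →
      (x ∈ Y ↔ y ∈ Y)) :
    ∀ x y, Ok A x → Ok A y → (x ∈ Y ↔ y ∈ Y) := by
  have key : ∀ m, ∀ s, A.T s → s.length + m = n → ∀ x y, Ok A x → Ok A y → s <:+ x.1 → s <:+ y.1 →
      (x ∈ Y ↔ y ∈ Y) := by
    intro m
    induction m with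
    | zero => intro s hs hl; exact hn s hs (by simpa using hl)
    | succ m ih =>
      intro s hs hl
      -- status along the list
      have h1 : ∀ i, i < A.len s → (((s, i) ∈ Y) ↔ (s, 0) ∈ Y) := by
        intro i
        induction i with
        | zero => intro _; rfl
        | succ i ihi =>
          intro hi
          rw [← ihi (by omega)]
          by_cases hC : A.T ((i + 1) :: s)
          · have h2 := hY (s, i) ⟨hs, by simp only; omega⟩
            rw [sc_ch hC] at h2
            have h3 := ih ((i + 1) :: s) hC (by simp only [List.length_cons]; omega)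
              ((i + 1) :: s, 0) ((i + 1) :: s, A.len ((i + 1) :: s) - 1)
              ⟨hC, A.pos _ hC⟩ ⟨hC, by have := A.pos _ hC; simp only; omega⟩
              (List.suffix_refl _) (List.suffix_refl _)
            have h4 := hY ((i + 1) :: s, A.len ((i + 1) :: s) - 1)
              ⟨hC, by have := A.pos _ hC; simp only; omega⟩
            rw [sc_last_cons (by have := A.pos _ hC; omega)] at h4
            rw [h2, h3, h4]
          · have h2 := hY (s, i) ⟨hs, by simp only; omega⟩
            rw [sc_in hi hC] at h2
            exact h2.symm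
      have h5 : ∀ x, Ok A x → s <:+ x.1 → (x ∈ Y ↔ (s, 0) ∈ Y) := by
        intro x hx hsx
        obtain ⟨r, hr⟩ := hsx
        obtain ⟨t, i⟩ := x
        simp only at hr
        rcases List.eq_nil_or_concat r with rfl | ⟨r', j, rfl⟩
        · simp only [List.nil_append] at hr
          subst hr
          exact h1 i hx.2
        · have hr2 : r' ++ (j :: s) = t := by simpa using hr
          have hjT : A.T (j :: s) := by
            have h6 : ∀ (r' : List ℕ), A.T (r' ++ (j :: s)) → A.T (j :: s) := by
              intro r'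
              induction r' with
              | nil => intro h; exact h
              | cons a r' ihr => intro h; exact ihr (A.par _ _ h).1
            exact h6 r' (by rw [hr2]; exact hx.1)
          have hp := A.par _ _ hjT
          have e1 : j - 1 + 1 = j := by omega
          rw [← h1 (j - 1) (by omega), hY (s, j - 1) ⟨hs, by simp only; omega⟩,
            sc_ch (by rw [e1]; exact hjT), e1]
          exact ih (j :: s) hjT (by simp only [List.length_cons]; omega) _ _ hx
            ⟨hjT, A.pos _ hjT⟩ ⟨r', hr2⟩ (List.suffix_refl _)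
      intro x y hx hy hsx hsy
      rw [h5 x hx hsx, h5 y hy hsy]
  intro x y hx hy
  exact key n [] A.root (by simp) x y hx hy List.nil_suffix List.nil_suffix

end Pool.Agent.L7h88.CE
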