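import Pool.Agent.L7h3.CE.Stm
import Pool.Agent.L7h88.CE.Comb
import Pool.Agent.Helper391.Lg.P_tr_append

/-! Project CE (helper3, MP_7f38c2_co), part EUL: from a tree of closed trails to the conclusion -/

set_option autoImplicit false

namespace Pool.Agent.L7h88.CE

open Set Pool.Agent.Helper391.Lg Pool.Agent.L7h3.CE

/-- a tree of closed trails exhausting all edges -/
structure Sys {E V : Type*} (ends : E → Sym2 V) where
  T : List ℕ → Prop
  Q : List ℕ → List E
  I : List ℕ → Set E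
  p : List ℕ → V
  root : T []
  rootI : I [] = univ
  par : ∀ i s, T (i :: s) → T s ∧ 0 < i ∧ i < (Q s).length
  sub : ∀ i s, T (i :: s) → I (i :: s) ⊆ I s
  out : ∀ i s, T (i :: s) → ∀ e ∈ I (i :: s), e ∉ Q s
  tr1 : ∀ i s, T (i :: s) → Tr ends (p s) ((Q s).take i) (p (i :: s))
  tr2 : ∀ i s, T (i :: s) → Tr ends (p (i :: s)) ((Q s).drop i) (p s)
  ne : ∀ s, T s → Q s ≠ []
  nd : ∀ s, T s → (Q s).Nodup
  subQ : ∀ s, T s → ∀ e ∈ Q s, e ∈ I s
  tr : ∀ s, T s → Tr ends (p s) (Q s) (p s)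
  conn : ∀ s, T s → ConI ends (I s)
  inf : ∀ s, T s → (I s).Infinite
  cov : ∀ s, T s → ∀ e ∈ I s, e ∉ Q s → ∃ i, T (i :: s) ∧ e ∈ I (i :: s)
  disj : ∀ s i j, T (i :: s) → T (j :: s) → ∀ e ∈ I (i :: s), ∀ f ∈ I (j :: s),
    ∀ x ∈ ends e, x ∈ ends f → i = j
  exh : ∀ e, ∃ s, T s ∧ e ∈ Q s

variable {E V : Type*} {ends : E → Sym2 V}

/-! trail lemmas -/

theorem tr_head {a b : V} {l : List E} (h : Tr ends a l b) (hl : 0 < l.length) :
    a ∈ ends (l[0]'hl) := by
  cases l with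
  | nil => simp at hl
  | cons e l =>
    obtain ⟨c, hc, -⟩ := h
    simp [hc]

theorem tr_last {b : V} : ∀ (l : List E) (a : V) (_ : Tr ends a l b) (hl : l ≠ []),
    b ∈ ends (l.getLast hl) := by
  intro l
  induction l with
  | nil => intro a _ hl; exact absurd rfl hl
  | cons e l ih =>
    intro a h hl
    obtain ⟨c, hc, ht⟩ := h
    cases l with
    | nil =>
      have : c = b := ht
      simp [hc, this]
    | cons f l =>
      rw [List.getLast_cons (by simp)]
      exact ih c ht (by simp)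

/-- at a gap the vertex is on both neighbouring edges -/
theorem tr_gap {a b : V} {l : List E} (h : Tr ends a l b) {i : ℕ} (hi : i + 1 < l.length) :
    ∃ x, x ∈ ends (l[i]'(by omega)) ∧ x ∈ ends (l[i + 1]'hi) := by
  have h1 : Tr ends a (l.take (i + 1) ++ l.drop (i + 1)) b := by rwa [List.take_append_drop]
  obtain ⟨c, h2, h3⟩ := (tr_append ends _ _ a b).1 h1
  refine ⟨c, ?_, ?_⟩
  · have h4 : l.take (i + 1) ≠ [] := by
      intro h; have := congrArg List.length h; rw [List.length_take] at this; simp at this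
      rw [this] at hi; simp at hi
    have h5 := tr_last _ _ h2 h4
    rw [List.getLast_eq_getElem] at h5
    simp only [List.getElem_take] at h5
    have h7 : (l.take (i + 1)).length - 1 = i := by rw [List.length_take]; omega
    simpa only [h7] using h5
  · have h4 : 0 < (l.drop (i + 1)).length := by simp; omega
    have h5 := tr_head h3 h4
    simpa using h5

theorem tr_take {a x : V} {l : List E} {i : ℕ} (hi : i < l.length)
    (h : Tr ends a (l.take (i + 1)) x) : x ∈ ends (l[i]'hi) := by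
  have h4 : l.take (i + 1) ≠ [] := by
    intro h; have := congrArg List.length h; simp at this
    rw [this] at hi; simp at hi
  have h5 := tr_last _ _ h h4
  rw [List.getLast_eq_getElem] at h5
  simp only [List.getElem_take] at h5
  have h7 : (l.take (i + 1)).length - 1 = i := by simp; omega
  simpa only [h7] using h5

theorem tr_drop {x b : V} {l : List E} {i : ℕ} (hi : i < l.length)
    (h : Tr ends x (l.drop i) b) : x ∈ ends (l[i]'hi) := by
  have h4 : 0 < (l.drop i).length := by simp; omega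
  have h5 := tr_head h h4
  simpa using h5

namespace Sys

variable (S : Sys ends)

/-- the index tree -/
def ix : Ix where
  T := S.T
  len := fun s => (S.Q s).length
  root := S.root
  pos := fun s hs => List.length_pos_iff.2 (S.ne s hs)
  par := S.par

variable {S}

theorem T_suf {s : List ℕ} : ∀ {r : List ℕ}, S.T (r ++ s) → S.T s
  | [], h => h
  | _ :: _, h => T_suf (S.par _ _ h).1

theorem T_suffix {s t : List ℕ} (h : s <:+ t) (ht : S.T t) : S.T s := by
  obtain ⟨r, rfl⟩ := h; exact T_suf ht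

theorem I_suf {s : List ℕ} : ∀ {r : List ℕ}, S.T (r ++ s) → S.I (r ++ s) ⊆ S.I s
  | [], _ => subset_rfl
  | _ :: _, h => (S.sub _ _ h).trans (I_suf (S.par _ _ h).1)

theorem I_suffix {s t : List ℕ} (h : s <:+ t) (ht : S.T t) : S.I t ⊆ S.I s := by
  obtain ⟨r, rfl⟩ := h; exact I_suf ht

/-- two nodes of the same level with a common vertex are equal -/
theorem same_level : ∀ {s t : List ℕ}, S.T s → S.T t → s.length = t.length →
    ∀ e ∈ S.I s, ∀ f ∈ S.I t, ∀ x ∈ ends e, x ∈ ends f → s = t := by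
  intro s
  induction s with
  | nil =>
    intro t _ _ hl e _ f _ x _ _
    exact (List.length_eq_zero_iff.1 hl.symm).symm
  | cons i s ih =>
    intro t hs ht hl e he f hf x hx hx'
    cases t with
    | nil => simp at hl
    | cons j t =>
      have h1 := ih (S.par _ _ hs).1 (S.par _ _ ht).1 (by simpa using hl) e (S.sub _ _ hs he) f
        (S.sub _ _ ht hf) x hx hx'
      subst h1
      rw [S.disj s i j hs ht e he f hf x hx hx']

theorem ends_ne (e : E) : ∃ x, x ∈ ends e := by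
  induction h : ends e using Sym2.ind with
  | _ a b => exact ⟨a, by simp⟩

/-- nested or disjoint -/
theorem nested {s t : List ℕ} (hs : S.T s) (ht : S.T t) (hl : s.length ≤ t.length) {e f : E}
    (he : e ∈ S.I s) (hf : f ∈ S.I t) {x : V} (hx : x ∈ ends e) (hx' : x ∈ ends f) : s <:+ t := by
  have h1 : t.drop (t.length - s.length) <:+ t := List.drop_suffix _ _
  have h2 := same_level hs (T_suffix h1 ht) (by simp; omega) e he f (I_suffix h1 ht hf) x hx hx'
  rw [h2]; exact h1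

theorem notQ {s t : List ℕ} (ht : S.T t) (h : s <:+ t) (hne : s ≠ t) {e : E} (he : e ∈ S.I t) :
    e ∉ S.Q s := by
  obtain ⟨r, rfl⟩ := h
  rcases List.eq_nil_or_concat r with rfl | ⟨r', j, rfl⟩
  · exact absurd rfl hne
  · have h1 : (r' ++ [j]) ++ s = r' ++ (j :: s) := by simp
    rw [List.concat_eq_append, h1] at he ht
    exact S.out j s (T_suf ht) e (I_suf ht he)

/-- an edge of `Q t` is in `I s` iff `t` is a descendant of `s` -/
theorem mem_iff {s t : List ℕ} (hs : S.T s) (ht : S.T t) {e : E} (he : e ∈ S.Q t) :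
    e ∈ S.I s ↔ s <:+ t := by
  have heI := S.subQ t ht e he
  obtain ⟨x, hx⟩ := ends_ne (ends := ends) e
  constructor
  · intro h
    rcases le_total s.length t.length with hl | hl
    · exact nested hs ht hl h heI hx hx
    · have h1 := nested ht hs hl heI h hx hx
      by_cases h2 : t = s
      · rw [h2]
      · exact absurd he (notQ hs h1 h2 h)
  · intro h
    exact I_suffix h ht heI

/-- uniqueness of the position -/
theorem uniq {x y : List ℕ × ℕ} (hx : S.T x.1) (hy : S.T y.1) {e : E}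
    (h1 : (S.Q x.1)[x.2]? = some e) (h2 : (S.Q y.1)[y.2]? = some e) : x = y := by
  have e1 : e ∈ S.Q x.1 := List.mem_of_getElem? h1
  have e2 : e ∈ S.Q y.1 := List.mem_of_getElem? h2
  have a1 := (mem_iff hx hy e2).1 (S.subQ _ hx _ e1)
  have a2 := (mem_iff hy hx e1).1 (S.subQ _ hy _ e2)
  have a3 : x.1 = y.1 := a1.eq_of_length (le_antisymm a1.length_le a2.length_le)
  obtain ⟨s, i⟩ := x
  obtain ⟨t, j⟩ := y
  simp only at a3 h1 h2 hx
  subst a3
  have hi : i < (S.Q s).length := (List.getElem?_eq_some_iff.1 h1).1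
  have := (List.getElem?_inj hi (S.nd s hx)).1 (h1.trans h2.symm)
  rw [this]

theorem exq (e : E) : ∃ x : List ℕ × ℕ, Ok S.ix x ∧ (S.Q x.1)[x.2]? = some e := by
  obtain ⟨s, hs, he⟩ := S.exh e
  obtain ⟨i, hi, h⟩ := List.getElem_of_mem he
  exact ⟨(s, i), ⟨hs, hi⟩, by simp [h, hi]⟩

/-- the position of an edge -/
noncomputable def po (S : Sys ends) (e : E) : List ℕ × ℕ := (exq (S := S) e).choose

theorem po_ok (e : E) : Ok S.ix (S.po e) := (exq (S := S) e).choose_spec.1
theorem po_eq (e : E) : (S.Q (S.po e).1)[(S.po e).2]? = some e := (exq (S := S) e).choose_spec.2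

open Classical in
/-- the edge at a position -/
noncomputable def el (S : Sys ends) (e₀ : E) (x : List ℕ × ℕ) : E := ((S.Q x.1)[x.2]?).getD e₀

theorem el_eq {e₀ : E} {x : List ℕ × ℕ} (h : Ok S.ix x) : (S.Q x.1)[x.2]? = some (S.el e₀ x) := by
  have h2 : x.2 < (S.Q x.1).length := h.2
  simp [el, h2]

theorem el_getElem {e₀ : E} {x : List ℕ × ℕ} (h : x.2 < (S.Q x.1).length) :
    S.el e₀ x = (S.Q x.1)[x.2]'h := by
  simp [el, h]

theorem po_el {e₀ : E} {x : List ℕ × ℕ} (h : Ok S.ix x) : S.po (S.el e₀ x) = x :=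
  uniq (po_ok _).1 h.1 (po_eq _) (el_eq h)

theorem el_po {e₀ : E} (e : E) : S.el e₀ (S.po e) = e := by
  have h1 := po_eq (S := S) e
  simp [el, h1]

theorem po_mem (e : E) : e ∈ S.Q (S.po e).1 := List.mem_of_getElem? (po_eq e)

theorem memI {s : List ℕ} (hs : S.T s) (e : E) : e ∈ S.I s ↔ s <:+ (S.po e).1 :=
  mem_iff hs (po_ok e).1 (po_mem e)

/-- the successor -/
noncomputable def su (S : Sys ends) (e₀ : E) (e : E) : E := S.el e₀ (sc S.ix (S.po e))

theorem po_su {e₀ e : E} : S.po (S.su e₀ e) = sc S.ix (S.po e) := po_el (sc_ok (po_ok e))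

theorem su_bij (e₀ : E) : Function.Bijective (S.su e₀) := by
  constructor
  · intro a b h
    have h1 := congrArg S.po h
    rw [po_su, po_su] at h1
    have h2 := congrArg (pc S.ix) h1
    rw [pc_sc (po_ok a), pc_sc (po_ok b)] at h2
    rw [← el_po (S := S) (e₀ := e₀) a, h2, el_po]
  · intro b
    refine ⟨S.el e₀ (pc S.ix (S.po b)), ?_⟩
    unfold su
    rw [po_el (pc_ok (po_ok b)), sc_pc (po_ok b), el_po]

/-- consecutive edges have a common vertex -/
theorem adj (e₀ : E) {x : List ℕ × ℕ} (h : Ok S.ix x) :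
    ∃ v, v ∈ ends (S.el e₀ x) ∧ v ∈ ends (S.el e₀ (sc S.ix x)) := by
  obtain ⟨s, i⟩ := x
  have hT : S.T s := h.1
  have hi : i < (S.Q s).length := h.2
  have e1 : S.el e₀ (s, i) = (S.Q s)[i]'hi := el_getElem hi
  by_cases hl : i + 1 < (S.Q s).length
  · by_cases hC : S.T ((i + 1) :: s)
    · have h2 : sc S.ix (s, i) = ((i + 1) :: s, 0) := sc_ch (A := S.ix) hC
      have h3 : 0 < (S.Q ((i + 1) :: s)).length := List.length_pos_iff.2 (S.ne _ hC)
      refine ⟨S.p ((i + 1) :: s), ?_, ?_⟩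
      · rw [e1]; exact tr_take hi (S.tr1 _ _ hC)
      · rw [h2, el_getElem (S := S) (x := ((i + 1) :: s, 0)) h3]
        exact tr_head (S.tr _ hC) h3
    · have h2 : sc S.ix (s, i) = (s, i + 1) := sc_in (A := S.ix) hl hC
      obtain ⟨v, h4, h5⟩ := tr_gap (S.tr s hT) hl
      refine ⟨v, ?_, ?_⟩
      · rw [e1]; exact h4
      · rw [h2, el_getElem (S := S) (x := (s, i + 1)) hl]; exact h5
  · have h6 : S.p s ∈ ends ((S.Q s)[i]'hi) := by
      have := tr_last _ _ (S.tr s hT) (S.ne s hT)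
      rw [List.getLast_eq_getElem] at this
      have h7 : (S.Q s).length - 1 = i := by omega
      simpa only [h7] using this
    cases s with
    | nil =>
      have h2 : sc S.ix ([], i) = ([], 0) := sc_last_nil (A := S.ix) hl
      have h3 : 0 < (S.Q []).length := by omega
      refine ⟨S.p [], ?_, ?_⟩
      · rw [e1]; exact h6
      · rw [h2, el_getElem (S := S) (x := ([], 0)) h3]; exact tr_head (S.tr _ hT) h3
    | cons j t =>
      have h2 : sc S.ix (j :: t, i) = (t, j) := sc_last_cons (A := S.ix) hl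
      have h3 := S.par _ _ hT
      refine ⟨S.p (j :: t), ?_, ?_⟩
      · rw [e1]; exact h6
      · rw [h2, el_getElem (S := S) (x := (t, j)) h3.2.2]
        exact tr_drop h3.2.2 (S.tr2 _ _ hT)

/-- the edges of level less than `n` -/
def P (S : Sys ends) (n : ℕ) : Set E := {e | (S.po e).1.length < n}

theorem fin_level (n : ℕ) : {s | S.T s ∧ s.length = n}.Finite := by
  induction n with
  | zero =>
    refine (Set.finite_singleton ([] : List ℕ)).subset ?_
    rintro s ⟨-, hs⟩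
    simpa using hs
  | succ n ih =>
    have h1 : {s | S.T s ∧ s.length = n + 1} ⊆
        ⋃ s ∈ {s | S.T s ∧ s.length = n}, (fun i => i :: s) '' (Set.Iio (S.Q s).length) := by
      rintro s ⟨hs, hl⟩
      cases s with
      | nil => simp at hl
      | cons i s =>
        have h2 := S.par _ _ hs
        simp only [Set.mem_iUnion]
        exact ⟨s, ⟨h2.1, by simpa using hl⟩, i, h2.2.2, rfl⟩
    exact (ih.biUnion (fun s _ => (Set.finite_Iio _).image _)).subset h1

theorem fin_P (n : ℕ) : (S.P n).Finite := by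
  have h1 : S.P n ⊆ ⋃ k ∈ Set.Iio n, ⋃ s ∈ {s | S.T s ∧ s.length = k}, {e | e ∈ S.Q s} := by
    intro e he
    simp only [Set.mem_iUnion]
    exact ⟨_, he, _, ⟨(po_ok e).1, rfl⟩, po_mem e⟩
  exact ((Set.finite_Iio n).biUnion (fun k _ => (fin_level k).biUnion
    (fun s _ => List.finite_toSet _))).subset h1

/-- an edge outside of `P n` is in a node of level `n` -/
theorem node {n : ℕ} {e : E} (he : e ∉ S.P n) :
    ∃ s, S.T s ∧ s.length = n ∧ e ∈ S.I s := by
  have h1 : n ≤ (S.po e).1.length := not_lt.1 he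
  have h2 : (S.po e).1.drop ((S.po e).1.length - n) <:+ (S.po e).1 := List.drop_suffix _ _
  have h3 := T_suffix (S := S) h2 (po_ok e).1
  exact ⟨_, h3, by simp; omega, (memI h3 e).2 h2⟩

theorem I_disj_P {s : List ℕ} (hs : S.T s) {e : E} (he : e ∈ S.I s) : e ∉ S.P s.length := by
  have := ((memI hs e).1 he).length_le
  intro h
  have h2 : (S.po e).1.length < s.length := h
  omega

/-- propagation of a property along an edge set -/
theorem reach_ind {R : Set E} {W : Set V} (hW : ∀ g ∈ R, ∀ x ∈ ends g, x ∈ W → ∀ y ∈ ends g, y ∈ W)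
    {a b : V} (h : (Gr ends R).Reachable a b) (ha : a ∈ W) : b ∈ W := by
  obtain ⟨w⟩ := h
  induction w with
  | nil => exact ha
  | cons hadj _ ih =>
    apply ih
    unfold Gr at hadj
    rw [SimpleGraph.fromEdgeSet_adj] at hadj
    obtain ⟨⟨g, hg, hg'⟩, -⟩ := hadj
    exact hW g hg _ (by rw [hg']; simp) ha _ (by rw [hg']; simp)

/-- the components of the complement of `P n` are the sets `I s` of the level `n` -/
theorem comp_eq {s : List ℕ} (hs : S.T s) {e : E} (he : e ∈ S.I s) :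
    compE ends (S.P s.length)ᶜ e = S.I s := by
  apply Set.Subset.antisymm
  · rintro f ⟨hf, x, hx, y, hy, hr⟩
    have h1 := reach_ind (R := (S.P s.length)ᶜ) (W := {v | ∃ g ∈ S.I s, v ∈ ends g}) ?_ hr
      ⟨e, he, hx⟩
    · obtain ⟨g, hg, hgy⟩ := h1
      obtain ⟨t, ht, hl, hft⟩ := node hf
      have := same_level hs ht hl.symm g hg f hft y hgy hy
      rw [this]; exact hft
    · rintro g hg v hv ⟨k, hk, hvk⟩ w hw
      obtain ⟨t, ht, hl, hgt⟩ := node hg
      have := same_level hs ht hl.symm k hk g hgt v hvk hv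
      exact ⟨g, by rw [this]; exact hgt, hw⟩
  · intro f hf
    obtain ⟨x, hx⟩ := ends_ne (ends := ends) e
    obtain ⟨y, hy⟩ := ends_ne (ends := ends) f
    refine ⟨I_disj_P hs hf, x, hx, y, hy, ?_⟩
    refine (S.conn s hs e he f hf x hx y hy).mono ?_
    unfold Gr
    apply SimpleGraph.fromEdgeSet_mono
    apply Set.image_mono
    intro g hg
    exact I_disj_P hs hg

theorem main3 (e₀ : E) (Y : Set E) (hY0 : Y.Nonempty) (hY1 : Yᶜ.Nonempty)
    (hY : ∀ e, e ∈ Y ↔ S.su e₀ e ∈ Y) :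
    ¬ {p : E × E | p.1 ∈ Y ∧ p.2 ∉ Y ∧ ∃ x, x ∈ ends p.1 ∧ x ∈ ends p.2}.Finite := by
  intro hfin
  have h1 : (Prod.fst '' {p : E × E | p.1 ∈ Y ∧ p.2 ∉ Y ∧ ∃ x, x ∈ ends p.1 ∧ x ∈ ends p.2}).Finite :=
    hfin.image _
  have h2 : ∃ n, Prod.fst '' {p : E × E | p.1 ∈ Y ∧ p.2 ∉ Y ∧ ∃ x, x ∈ ends p.1 ∧ x ∈ ends p.2} ⊆
      S.P n := by
    obtain ⟨m, hm⟩ := (h1.image (fun e => (S.po e).1.length)).bddAbove
    exact ⟨m + 1, fun e he => Nat.lt_succ_of_le (hm ⟨e, he, rfl⟩)⟩
  obtain ⟨n, hn⟩ := h2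
  -- nodes of level n are uniform
  have h3 : ∀ s, S.T s → s.length = n → ∀ e ∈ S.I s, ∀ f ∈ S.I s, e ∈ Y → f ∈ Y := by
    intro s hs hl e he f hf heY
    by_contra hfY
    have hbad : ∀ g ∈ S.I s, ∀ k ∈ S.I s, ∀ x ∈ ends g, x ∈ ends k → g ∈ Y → k ∈ Y := by
      intro g hg k _ x hx hx' hgY
      by_contra hkY
      have h4 : g ∈ S.P n := hn ⟨(g, k), ⟨hgY, hkY, x, hx, hx'⟩, rfl⟩
      rw [← hl] at h4
      exact I_disj_P hs hg h4
    obtain ⟨x, hx⟩ := ends_ne (ends := ends) e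
    obtain ⟨y, hy⟩ := ends_ne (ends := ends) f
    have h5 := reach_ind (R := S.I s) (W := {v | ∃ g ∈ S.I s, g ∈ Y ∧ v ∈ ends g}) ?_
      (S.conn s hs e he f hf x hx y hy) ⟨e, he, heY, hx⟩
    · obtain ⟨g, hg, hgY, hgy⟩ := h5
      exact hfY (hbad g hg f hf y hgy hy hgY)
    · rintro g hg v hv ⟨k, hk, hkY, hvk⟩ w hw
      exact ⟨g, hg, hbad k hk g hg v hvk hv hkY, hw⟩
  have h6 := unif (A := S.ix) {x | S.el e₀ x ∈ Y} ?_ n ?_
  · obtain ⟨a, ha⟩ := hY0
    obtain ⟨b, hb⟩ := hY1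
    have h7 := h6 (S.po a) (S.po b) (po_ok a) (po_ok b)
    simp only [Set.mem_ofPred_eq, el_po] at h7
    exact hb (h7.1 ha)
  · intro x hx
    simp only [Set.mem_ofPred_eq]
    rw [hY (S.el e₀ x)]
    unfold su
    rw [po_el hx]
  · intro s hs hl x y hx hy hsx hsy
    have a1 : S.el e₀ x ∈ S.I s := by rw [memI hs, po_el hx]; exact hsx
    have a2 : S.el e₀ y ∈ S.I s := by rw [memI hs, po_el hy]; exact hsy
    exact ⟨h3 s hs hl _ a1 _ a2, h3 s hs hl _ a2 _ a1⟩

theorem main4 (e₀ : E) (F : Set E) (hF : F.Finite) : ∃ P : Set E, P.Finite ∧ F ⊆ P ∧ ∀ e, e ∉ P →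
      (compE ends Pᶜ e).Infinite ∧
      (∃! a, a ∉ compE ends Pᶜ e ∧ S.su e₀ a ∈ compE ends Pᶜ e) ∧
      ∃! b, b ∈ compE ends Pᶜ e ∧ S.su e₀ b ∉ compE ends Pᶜ e := by
  obtain ⟨m, hm⟩ := (hF.image (fun e => (S.po e).1.length)).bddAbove
  refine ⟨S.P (m + 1), fin_P _, fun e he => Nat.lt_succ_of_le (hm ⟨e, he, rfl⟩), ?_⟩
  intro e he
  obtain ⟨s, hs, hl, hes⟩ := node he
  have h1 := comp_eq hs hes
  rw [hl] at h1
  rw [h1]
  cases s with
  | nil => simp at hl
  | cons j t =>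
    have hp := S.par _ _ hs
    have hpos : 0 < (S.Q (j :: t)).length := List.length_pos_iff.2 (S.ne _ hs)
    have o1 : Ok S.ix (t, j - 1) := ⟨hp.1, show j - 1 < (S.Q t).length by omega⟩
    have o2 : Ok S.ix (j :: t, S.ix.len (j :: t) - 1) := ⟨hs, show
      (S.Q (j :: t)).length - 1 < (S.Q (j :: t)).length by omega⟩
    refine ⟨S.inf _ hs, ⟨S.el e₀ (t, j - 1), ?_, ?_⟩, ⟨S.el e₀ (j :: t, S.ix.len (j :: t) - 1), ?_, ?_⟩⟩
    · simp only [memI hs, po_su, po_el o1]
      exact (ent (A := S.ix) o1 hs).2 rfl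
    · rintro a ⟨h2, h3⟩
      rw [memI hs] at h2
      rw [memI hs, po_su] at h3
      have := (ent (A := S.ix) (po_ok a) hs).1 ⟨h2, h3⟩
      rw [← this, el_po]
    · simp only [memI hs, po_su, po_el o2]
      exact (ext (A := S.ix) o2 hs).2 rfl
    · rintro a ⟨h2, h3⟩
      rw [memI hs] at h2
      rw [memI hs, po_su] at h3
      have := (ext (A := S.ix) (po_ok a) hs).1 ⟨h2, h3⟩
      rw [← this, el_po]

theorem concl (S : Sys ends) (e₀ : E) : ∃ succ : E → E, Function.Bijective succ ∧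
    (∀ e, ∃ x, x ∈ ends e ∧ x ∈ ends (succ e)) ∧
    (∀ Y : Set E, Y.Nonempty → Yᶜ.Nonempty → (∀ e, e ∈ Y ↔ succ e ∈ Y) →
      ¬ {p : E × E | p.1 ∈ Y ∧ p.2 ∉ Y ∧ ∃ x, x ∈ ends p.1 ∧ x ∈ ends p.2}.Finite) ∧
    ∀ S : Set E, S.Finite → ∃ P : Set E, P.Finite ∧ S ⊆ P ∧ ∀ e, e ∉ P →
      (compE ends Pᶜ e).Infinite ∧
      (∃! a, a ∉ compE ends Pᶜ e ∧ succ a ∈ compE ends Pᶜ e) ∧
      ∃! b, b ∈ compE ends Pᶜ e ∧ succ b ∉ compE ends Pᶜ e := by
  refine ⟨S.su e₀, su_bij e₀, ?_, main3 e₀, main4 e₀⟩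
  intro e
  have := adj (S := S) e₀ (po_ok e)
  rw [el_po] at this
  exact this

end Sys

end Pool.Agent.L7h88.CE
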